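import Pool.Agent.Q187.SC.Fix

/-!
# Sections without fixed elements and closed points of bounded degree

Let `s` be a section of the fundamental group of a hyperbolic curve over a finitely generated field
of characteristic zero with `F(s) = 1`. Then `s` comes from a rational point if and only if its
neighbourhoods have closed points (or cusps) of bounded degree. So all sections with `F(s) = 1`
over `K` come from rational points if and only if there is a `d` such that all hyperbolic curves
over `K` (or only those of large genus) which have a section with `F(s) = 1` have a closed point or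
cusp of degree at most `d`.
-/

namespace Pool.Agent.Results.MP_3dd09b_ag.BoundedDegree

open Pool.Agent.Q187.SC

universe u

theorem result {G : Type u} [Group G] [TopologicalSpace G] [IsTopologicalGroup G] [CompactSpace G]
    [T2Space G] (N : Subgroup G) (cusps : ∀ C : Curve G, Set C.X) (K K' : Curve G → Prop)
    (hK : IsHyperbolicClass K) (hK' : IsCofinal K K') (hc : CuspFact K N cusps) :
    (∀ C, K C → ∀ σ : Sec C, fixedElements C N σ = ⊥ →
      (FromRational C (cusps C) σ ↔ ∃ d, Bounded C σ d)) ∧
    (∀ d, 1 ≤ d →
      ((∀ C, K C → ∀ σ : Sec C, fixedElements C N σ = ⊥ → FromRational C (cusps C) σ) ↔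
        ∀ C, K' C → (∃ σ : Sec C, fixedElements C N σ = ⊥) → HasPoint C d)) :=
  main_fixed hK hK' hc

end Pool.Agent.Results.MP_3dd09b_ag.BoundedDegree
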